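import Pool.Agent.Lib.MP_16285c_agS.Box.Spec

/-!
# The box on a surface
-/

set_option autoImplicit false

namespace Pool.Agent.Lib.MP_16285c_agS.Box

open MvPolynomial

/-- The box on a surface. -/
theorem tBoxS (hHc : StmtHc) (hModp : StmtModp) (hOrb : StmtOrbS) (hRoot : StmtRootV) :
    StmtBoxS := by
  intro k _ _ _ P f hP hMon hden hJ hjX hinv B hB p₀
  have hdvd := hHc.2.2.2 k P f hP
    (fun i h0 => hden i (by rw [h0]; exact dvd_zero P)) hinv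
  obtain ⟨V, S, R₀, hR₀, hR, p, s, r₀, f₀, P₀, B₀, W₀, a, hp, hpp, hch, hs, hfix, hf, hPm, hBm,
    hMon0, hPW, hr₀, ha, hFr, hPa, hBa, hJa⟩ := hModp k P B f hP hMon hden hJ hjX hdvd hB p₀
  obtain ⟨N, hN, hx⟩ := hOrb hHc k P V S R₀ hR₀ hR p s r₀ f₀ P₀ B₀ W₀ a hp hch hs hfix hPm hPW
    hr₀ ha hFr hBa hJa
  refine ⟨V, p, a, N, hp, hpp, hch, hN, ⟨r₀, hr₀, ha⟩, ?_, ?_⟩
  · intro t h1 h2
    obtain ⟨z₀, hz, he⟩ := hRoot k V R₀ hR P₀ a hMon0 hPa t h1 h2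
    rw [hPm] at he
    exact ⟨z₀, hz, he⟩
  · intro x₀ hx₀ hPx
    obtain ⟨x, hx0, horb, hall, hcl⟩ := hx x₀ hx₀ hPx
    rw [hf] at horb
    rw [hBm] at hall
    exact ⟨x, hx0, horb, hall, hcl⟩

end Pool.Agent.Lib.MP_16285c_agS.Box

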