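import Pool.Agent.Lib.MP_16285c_agS.Box.Spec

/-!
# Orbits on the surface over the Frobenius point (proof of `StmtOrbS`)
-/

set_option autoImplicit false

namespace Pool.Agent.Lib.MP_16285c_agS.Box

open MvPolynomial
open Pool.Agent.Lib.MP_16285c_ag (RM FrobPt Lies red liftP)
open Pool.Agent.ZDO (Wd Jc ClN dd nn hz closed_place2)
open Pool.Agent.Lib.MP_16285c_agS.Hrx (Mon dz wX jX fv Keeps Ok StmtElim StmtHrux)

namespace OrbSM

/-- The surface is preserved. -/
theorem keep (hHc : StmtHc) (k : Type) [Field k] (P W : MvPolynomial (Fin 3) k) (f : RM k 3)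
    (hW : P * W = hc f P.totalDegree P) (x x' : Fin 3 → k) (hx : f.Next x x')
    (hP : eval x P = 0) : eval x' P = 0 := by
  have hden : ∀ i, aeval x (f.den i) ≠ 0 := fun i => (hx i).1
  have h1 := hHc.2.1 k k f P.totalDegree P x le_rfl hden
  have hfv : fv f x = x' := by
    funext i
    have h2 : eval x (f.den i) ≠ 0 := (hx i).1
    have h3 : x' i * eval x (f.den i) = eval x (f.num i) := (hx i).2
    show eval x (f.num i) / eval x (f.den i) = x' i
    rw [← h3, mul_div_assoc, div_self h2, mul_one]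
  have hdd : aeval x (dd f) ≠ (0 : k) := by
    have h4 : aeval x (dd f) = ∏ i, aeval x (f.den i) := by
      rw [dd, map_prod]
    rw [h4]
    exact Finset.prod_ne_zero_iff.2 fun i _ => hden i
  rw [← hW, map_mul, hfv] at h1
  have h5 : aeval x P = (0 : k) := hP
  rw [h5, zero_mul] at h1
  rcases mul_eq_zero.1 h1.symm with h6 | h6
  · exact absurd h6 (pow_ne_zero _ hdd)
  · exact h6

end OrbSM

/-- (B4). -/
theorem tOrbS : StmtOrbS := by
  intro hHc k _ P V S R₀ hR₀ hR p s r₀ f₀ P₀ B₀ W₀ a hp hchar hs hfix hP hPW hr₀ har hfrob haB haJ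
  have : Fact p.Prime := ⟨hp⟩
  obtain ⟨N, hN, hcl⟩ := closed_place2 V S R₀ hR₀ hR p s hfix hs 3 f₀ a r₀ hr₀ har hfrob haJ
  have hPW' : P * map R₀.subtype W₀ = hc (f₀.map R₀.subtype) P.totalDegree P := by
    have h1 := congrArg (map R₀.subtype) hPW
    rw [map_mul, hP, hHc.1 R₀ k R₀.subtype f₀ P.totalDegree P₀, hP] at h1
    exact h1
  refine ⟨N, hN, fun x₀ hx₀ hPx => ?_⟩
  obtain ⟨x, h0, hx, -, hxB⟩ := liftP k V R₀ hR p s hfix 3 f₀ a hfrob x₀ hx₀
  have hPm : ∀ m, eval (x m) P = 0 := by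
    intro m
    induction m with
    | zero => rw [h0]; exact hPx
    | succ m ih =>
      exact OrbSM.keep hHc k P (map R₀.subtype W₀) (f₀.map R₀.subtype) hPW' (x m) (x (m + 1))
        (hx m) ih
  exact ⟨x, h0, hx, fun m => ⟨hPm m, hxB B₀ haB m⟩, hcl x hx (by rw [h0]; exact hx₀)⟩

end Pool.Agent.Lib.MP_16285c_agS.Box
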