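import Pool.Agent.Lib.MP_16285c_agS.Hrx.Spec
import Pool.Agent.ZDO.Box2

/-!
# Frobenius places of rational self-maps of surfaces: statements

Section B of note 4871 on `MP_16285c_ag`: for a rational self-map `f` of the surface `X : P = 0` over an algebraically closed field of
characteristic zero there are a place and a Frobenius point `a` of the reduction of `X`, such that all the orbits of points of `X` over `a` are well
defined, avoid a given curve and have the closedness property `ClN`. The map is given by an ambient rational map `f : RM k 3` (with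
invertible Jacobian along `X`), so that `ZDO/Clo2.lean` can be used for `n = 3`. Pattern: the proof of `box2` in `Pool/Agent/ZDO/Box2.lean`.

Every lemma is a `Prop` with its proof in the docstring; used statements are hypotheses.
-/

set_option autoImplicit false

namespace Pool.Agent.Lib.MP_16285c_agS.Box

open MvPolynomial
open Pool.Agent.Lib.MP_16285c_ag (RM FrobPt Lies red)
open Pool.Agent.ZDO (Wd Jc ClN dd nn hz)
open Pool.Agent.Lib.MP_16285c_agS.Hrx (Mon dz wX jX fv Keeps Ok StmtElim StmtHrux)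
open Pool.Agent.Lib.MP_16285c_agS.Bez (StmtBN3)

/-- The numerator of `A ∘ f` for the denominator `(dd f) ^ N`, `N ≥` the total degree of `A`. -/
noncomputable def hc {R : Type} [CommRing R] (f : RM R 3) (N : ℕ) (A : MvPolynomial (Fin 3) R) :
    MvPolynomial (Fin 3) R :=
  bind₁ (Fin.cons (α := fun _ => MvPolynomial (Fin 3) R) (dd f) (nn f)) (hz N A)

/-- (B1) The numerator of `A ∘ f`. PROOF. (a) `hz_map`, `dd_map`, `nn_map` (`ZDO/Cone.lean`), `map_bind₁`, `Fin.cons`. (b) `aeval ξ (hc f N A) = ∑ m, coeff m A * (dd ξ) ^ (N - |m|) * ∏ (nn_i ξ) ^ (m i)` (`hz`, `hmon`), and `nn_i(ξ) = (fv f ξ i) * (dd f)(ξ)` (`dd_eq`, `den_i(ξ) ≠ 0`), `|m| ≤ N`. (c) From `P ∣ hc f N P`, `N = P.totalDegree`, by (b) (the denominators are not zero).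
(d) By (b) at the generic point of affine space: `f.comp P * fr (dd f) ^ N = fr (hc f N P)` (`f.comp A = A(num / den)`, `RM.comp` in `Base.lean`). So `fr (P * N' * dd ^ N) = fr (E * hc f N P)`, `P * N' * dd ^ N = E * hc f N P` in the polynomial ring, and `P` is prime, `¬ P ∣ E`. -/
def StmtHc : Prop :=
  (∀ (R S : Type) [CommRing R] [CommRing S] (φ : R →+* S) (f : RM R 3) (N : ℕ) (A : MvPolynomial (Fin 3) R),
    map φ (hc f N A) = hc (f.map φ) N (map φ A)) ∧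
  (∀ (κ L : Type) [Field κ] [Field L] [Algebra κ L] (f : RM κ 3) (N : ℕ) (A : MvPolynomial (Fin 3) κ) (ξ : Fin 3 → L),
    A.totalDegree ≤ N → (∀ i, aeval ξ (f.den i) ≠ 0) →
    aeval ξ (hc f N A) = aeval ξ (dd f) ^ N * aeval (fv f ξ) A) ∧
  (∀ (κ : Type) [Field κ] (P : MvPolynomial (Fin 3) κ) (f : RM κ 3) (N : ℕ), P.totalDegree ≤ N → P ∣ hc f N P → Keeps P f) ∧
  ∀ (κ : Type) [Field κ] (P : MvPolynomial (Fin 3) κ) (f : RM κ 3), Irreducible P → (∀ i, f.den i ≠ 0) →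
    (∃ E N : MvPolynomial (Fin 3) κ, ¬ P ∣ E ∧
      algebraMap (MvPolynomial (Fin 3) κ) (FractionRing (MvPolynomial (Fin 3) κ)) (P * N) =
        algebraMap (MvPolynomial (Fin 3) κ) (FractionRing (MvPolynomial (Fin 3) κ)) E * f.comp P) →
    P ∣ hc f P.totalDegree P

/-- (B2) A curve stays a curve. PROOF. `P` is monic in `X 0` of positive degree. `StmtElim` (a) (with `d` large) gives `R ≠ 0` and `U, V` with `rename Fin.succ R = P * U + G * V` over `k`. Let `S` be the set of all coefficients of `U`, `V`, `R` (finite; `coeff` on the supports). Let `R₀ ⊇ S` be a subring, `P₀, G₀` over `R₀` with images `P, G`;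
`U, V, R` have coefficients in `R₀`, so come from `U₀, V₀, R'` over `R₀` (`mem_range_map_iff_coeffs_subset` or `SpreadAux.liftM`), and `rename R' = P₀ U₀ + G₀ V₀` (injectivity of `map R₀.subtype`). Let `r ≠ 0` be one coefficient of `R`, `φ r ≠ 0`. If `map φ P₀ ∣ map φ G₀` then
`map φ P₀ ∣ rename (map φ R')`, which does not involve `X 0`, while `map φ P₀` is monic in `X 0` of positive degree; so `map φ R' = 0`, a contradiction (`φ r` is one of its coefficients). -/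
def StmtStay : Prop :=
  StmtElim → ∀ (k : Type) [Field k] (P G : MvPolynomial (Fin 3) k), Irreducible P → Mon P → ¬ P ∣ G →
    ∃ (S : Finset k) (r : k), r ≠ 0 ∧ r ∈ S ∧ ∀ R₀ : Subring k, (S : Set k) ⊆ R₀ →
      ∀ (P₀ G₀ : MvPolynomial (Fin 3) R₀), map R₀.subtype P₀ = P → map R₀.subtype G₀ = G →
      ∀ (κ : Type) [Field κ] (φ : R₀ →+* κ), (∀ r' : R₀, (r' : k) = r → φ r' ≠ 0) →
        ¬ map φ P₀ ∣ map φ G₀

/-- (B3) The place and the Frobenius point. PROOF (uses `StmtHrux`, `StmtElim`, `StmtBN3`, `StmtHc`, `StmtStay`; pattern `ZDO/Box2.lean`). `N = P.totalDegree`. `G = B * dd f * Jc f * jX P f` is not divisible by the prime `P`. Let `hc f N P = P * W`. `StmtStay` gives `S₁`, `r₁`. Let `S` contain `S₁` and all coefficients of `P`, `B`, `W`, `num i`, `den i` (`SpreadAux.Ev`), `R₀ = Subring.closure S`,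
`P₀, B₀, W₀, f₀` over `R₀`; `P₀` is monic in `X 0` and `P₀ * W₀ = hc f₀ N P₀` (injectivity). `StmtBN3` for `R = R₀`, `Ω = k`, `ι = R₀.subtype` gives `g ∈ R₀`, `g ≠ 0`. Let `d` bound the degrees of `P`, `num i`, `den i`, and `p₁` the bound of `StmtHrux` for `d`. `placeP` for `S₂ = {g, r₁, (p₀ + p₁)!}`: `V`, `p`, `s₀`; `p > p₀`, `p ≥ p₁`. As in `box2` let
`κ₁` = the algebraic closure of `ZMod p` in the residue field, `ψ₁ : R₀ →+* κ₁`, `τ ∘ ψ₁ = red`; every element of `κ₁` is fixed by some `x ↦ x ^ p ^ m` (`alg_pow`). `P̄ = map ψ₁ P₀`, `f̄ = f₀.map ψ₁` satisfy `Ok P̄ f̄ d` : irreducible (`BN3`), monic, degrees (`totalDegree_map_le`), `P̄` does not divide `map ψ₁ G₀ = B̄ * dd f̄ * Jc f̄ * jX P̄ f̄` (`StmtStay`; `dd_map`, `map_Jc`; `jX` is natural) and so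
does not divide the factors (`den i ∣ dd`), `Keeps` by `StmtHc` (a), (c). `StmtHrux` for `B = map ψ₁ G₀` and `s₀` gives `s`, `s₀ ∣ s`, and `a₁`; `a = τ ∘ a₁`. `red r ^ p ^ s = red r` as `s₀ ∣ s`; `a i ^ p ^ r₀ = a i` by `exists_exponent` (`ZDO/Fmt.lean`). -/
def StmtModp : Prop :=
  ∀ (k : Type) [Field k] [IsAlgClosed k] [CharZero k] (P B : MvPolynomial (Fin 3) k) (f : RM k 3), Irreducible P → Mon P →
    (∀ i, ¬ P ∣ f.den i) → ¬ P ∣ Jc f → ¬ P ∣ jX P f → P ∣ hc f P.totalDegree P → ¬ P ∣ B → ∀ p₀ : ℕ,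
    ∃ (V : ValuationSubring k) (S : Finset k) (R₀ : Subring k) (_ : R₀ = Subring.closure (S : Set k))
      (hR : ∀ r ∈ R₀, r ∈ V) (p s r₀ : ℕ) (f₀ : RM R₀ 3) (P₀ B₀ W₀ : MvPolynomial (Fin 3) R₀)
      (a : Fin 3 → IsLocalRing.ResidueField V), p.Prime ∧ p₀ < p ∧ CharP (IsLocalRing.ResidueField V) p ∧ 1 ≤ s ∧
      (∀ r, red V R₀ hR r ^ p ^ s = red V R₀ hR r) ∧ f₀.map R₀.subtype = f ∧ map R₀.subtype P₀ = P ∧
      map R₀.subtype B₀ = B ∧ Mon P₀ ∧ P₀ * W₀ = hc f₀ P.totalDegree P₀ ∧ 1 ≤ r₀ ∧ (∀ i, a i ^ p ^ r₀ = a i) ∧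
      FrobPt (f₀.map (red V R₀ hR)) (p ^ s) a ∧ eval a (map (red V R₀ hR) P₀) = 0 ∧
      eval a (map (red V R₀ hR) B₀) ≠ 0 ∧ eval a (Jc (f₀.map (red V R₀ hR))) ≠ 0

/-- (B4) Orbits over the Frobenius point. PROOF (uses `StmtHc`; end of the proof of `box2`). `closed_place2` (`ZDO/Clo2.lean`, `n = 3`) gives `N`. For `x₀` over `a` `liftP` (`Lib/MP_16285c_ag/Lift.lean`) gives the orbit `x`, with `eval (x i) (map R₀.subtype G) ≠ 0` for every `G` over `R₀` with `eval a (map red G) ≠ 0`. If `P(x₀) = 0` then `P(x m) = 0` for all `m` by induction: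
`(dd f)(x m) ^ N' * P(x (m+1)) = (hc f N' P)(x m) = P(x m) W(x m) = 0` (`StmtHc` (b) with `L = k`, `x (m+1) i = fv f (x m) i`; `N' = P.totalDegree`). -/
def StmtOrbS : Prop :=
  StmtHc → ∀ (k : Type) [Field k] (P : MvPolynomial (Fin 3) k) (V : ValuationSubring k) (S : Finset k) (R₀ : Subring k)
    (_ : R₀ = Subring.closure (S : Set k)) (hR : ∀ r ∈ R₀, r ∈ V) (p s r₀ : ℕ) (f₀ : RM R₀ 3)
    (P₀ B₀ W₀ : MvPolynomial (Fin 3) R₀) (a : Fin 3 → IsLocalRing.ResidueField V), p.Prime →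
    CharP (IsLocalRing.ResidueField V) p → 1 ≤ s → (∀ r, red V R₀ hR r ^ p ^ s = red V R₀ hR r) →
    map R₀.subtype P₀ = P → P₀ * W₀ = hc f₀ P.totalDegree P₀ → 1 ≤ r₀ → (∀ i, a i ^ p ^ r₀ = a i) →
    FrobPt (f₀.map (red V R₀ hR)) (p ^ s) a → eval a (map (red V R₀ hR) B₀) ≠ 0 →
    eval a (Jc (f₀.map (red V R₀ hR))) ≠ 0 →
    ∃ N : ℕ, 1 ≤ N ∧ ∀ x₀ : Fin 3 → k, (∀ i, Lies V (x₀ i) (a i)) → eval x₀ P = 0 →
      ∃ x : ℕ → Fin 3 → k, x 0 = x₀ ∧ (f₀.map R₀.subtype).Orb x ∧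
        (∀ m, eval (x m) P = 0 ∧ eval (x m) (map R₀.subtype B₀) ≠ 0) ∧ ClN N p x

/-- (B5) Points of the surface over `a`. PROOF. Let `t` lie over `(a 1, a 2)`, `g ∈ V[Z]` the polynomial `(finSuccEquiv P₀)` with coefficients evaluated at `t : Fin 2 → V` (through `R₀ ⊆ V`), monic. Over `k` it is a product of `Z - z_j`, `z_j ∈ k` (algebraically closed), integral over `V`, so `z_j ∈ V` (`V` is integrally closed), and `g = ∏ (Z - z_j)` in `V[Z]`. Its reduction is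
`map red P₀` at `(Z, a 1, a 2)` and has the root `a 0`, so some `z_j` reduces to `a 0`. -/
def StmtRootV : Prop :=
  ∀ (k : Type) [Field k] [IsAlgClosed k] (V : ValuationSubring k) (R₀ : Subring k) (hR : ∀ r ∈ R₀, r ∈ V)
    (P₀ : MvPolynomial (Fin 3) R₀) (a : Fin 3 → IsLocalRing.ResidueField V), Mon P₀ →
    eval a (map (red V R₀ hR) P₀) = 0 → ∀ t : Fin 2 → k, Lies V (t 0) (a 1) → Lies V (t 1) (a 2) →
    ∃ z₀ : k, Lies V z₀ (a 0) ∧ eval ![z₀, t 0, t 1] (map R₀.subtype P₀) = 0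

/-- (B6) The box on a surface. PROOF (uses `StmtHc`, `StmtModp`, `StmtOrbS`, `StmtRootV`): put together. -/
def StmtBoxS : Prop :=
  ∀ (k : Type) [Field k] [IsAlgClosed k] [CharZero k] (P : MvPolynomial (Fin 3) k) (f : RM k 3), Irreducible P → Mon P →
    (∀ i, ¬ P ∣ f.den i) → ¬ P ∣ Jc f → ¬ P ∣ jX P f →
    (∃ E N : MvPolynomial (Fin 3) k, ¬ P ∣ E ∧
      algebraMap (MvPolynomial (Fin 3) k) (FractionRing (MvPolynomial (Fin 3) k)) (P * N) =
        algebraMap (MvPolynomial (Fin 3) k) (FractionRing (MvPolynomial (Fin 3) k)) E * f.comp P) →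
    ∀ B : MvPolynomial (Fin 3) k, ¬ P ∣ B → ∀ p₀ : ℕ,
    ∃ (V : ValuationSubring k) (p : ℕ) (a : Fin 3 → IsLocalRing.ResidueField V) (N : ℕ), p.Prime ∧ p₀ < p ∧
      CharP (IsLocalRing.ResidueField V) p ∧ 1 ≤ N ∧ (∃ r : ℕ, 1 ≤ r ∧ ∀ i, a i ^ p ^ r = a i) ∧
      (∀ t : Fin 2 → k, Lies V (t 0) (a 1) → Lies V (t 1) (a 2) →
        ∃ z₀ : k, Lies V z₀ (a 0) ∧ eval ![z₀, t 0, t 1] P = 0) ∧
      ∀ x₀ : Fin 3 → k, (∀ i, Lies V (x₀ i) (a i)) → eval x₀ P = 0 → ∃ x : ℕ → Fin 3 → k, x 0 = x₀ ∧ f.Orb x ∧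
        (∀ m, eval (x m) P = 0 ∧ eval (x m) B ≠ 0) ∧ ClN N p x

end Pool.Agent.Lib.MP_16285c_agS.Box
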